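import Mathlib

set_option autoImplicit false

namespace Pool.Agent.R188.ZF

open Finset

/-- `A` lies in `S(G)`: real symmetric, and for `i ≠ j` the entry `A i j` is non-zero exactly when
`i` and `j` are adjacent; the diagonal is arbitrary. -/
def InS {V : Type*} (G : SimpleGraph V) (A : Matrix V V ℝ) : Prop :=
  A.IsSymm ∧ ∀ i j, i ≠ j → (A i j ≠ 0 ↔ G.Adj i j)

/-- The nullity of a real square matrix. -/
noncomputable def nullity {V : Type*} [Fintype V] (A : Matrix V V ℝ) : ℕ :=
  Module.finrank ℝ (LinearMap.ker A.mulVecLin)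

/-- The maximum nullity `M(G)`. -/
noncomputable def maxNullity {V : Type*} [Fintype V] (G : SimpleGraph V) : ℕ :=
  sSup {k | ∃ A : Matrix V V ℝ, InS G A ∧ nullity A = k}

/-- A fort: a nonempty set `F` such that no vertex outside `F` has exactly one neighbour in `F`. -/
def IsFort {V : Type*} (G : SimpleGraph V) (F : Finset V) : Prop :=
  F.Nonempty ∧ ∀ v, v ∉ F → ¬ ∃! w, w ∈ F ∧ G.Adj v w

/-- An inclusion-minimal fort. -/
def IsMinFort {V : Type*} (G : SimpleGraph V) (F : Finset V) : Prop :=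
  IsFort G F ∧ ∀ F', IsFort G F' → F' ⊆ F → F' = F

/-- The fractional zero forcing number `Z*(G)`, the value of the linear program whose constraints
are the inclusion-minimal forts. -/
noncomputable def zStar {V : Type*} [Fintype V] (G : SimpleGraph V) : ℝ :=
  sInf {s | ∃ x : V → ℝ, (∀ v, 0 ≤ x v) ∧ (∀ F, IsMinFort G F → 1 ≤ ∑ v ∈ F, x v) ∧
    s = ∑ v, x v}

theorem nullity_le_card {V : Type*} [Fintype V] (A : Matrix V V ℝ) :
    nullity A ≤ Fintype.card V := by
  classical
  unfold nullity
  refine (Submodule.finrank_le _).trans ?_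
  simp

theorem exists_minFort {V : Type*} [Fintype V] {G : SimpleGraph V} {F : Finset V}
    (h : IsFort G F) : ∃ F', IsMinFort G F' ∧ F' ⊆ F := by
  classical
  induction F using Finset.strongInduction with
  | H F ih =>
    by_cases hm : IsMinFort G F
    · exact ⟨F, hm, subset_rfl⟩
    · unfold IsMinFort at hm
      push Not at hm
      obtain ⟨F', h1, h2, h3⟩ := hm h
      obtain ⟨F'', h4, h5⟩ := ih F' (Finset.ssubset_iff_subset_ne.2 ⟨h2, h3⟩) h1
      exact ⟨F'', h4, h5.trans h2⟩

/-- A fractional packing of forts is a lower bound for `Z*(G)`. -/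
theorem le_zStar {V : Type*} [Fintype V] {G : SimpleGraph V} {ι : Type*} [Fintype ι]
    (F : ι → Finset V) (y : ι → ℝ) (hF : ∀ i, IsFort G (F i)) (hy : ∀ i, 0 ≤ y i)
    [DecidableEq V] (hpack : ∀ v, ∑ i, (if v ∈ F i then y i else 0) ≤ 1) :
    ∑ i, y i ≤ zStar G := by
  unfold zStar
  apply le_csInf
  · refine ⟨∑ v : V, (1 : ℝ), fun _ => 1, fun _ => zero_le_one, fun F' hF' => ?_, rfl⟩
    obtain ⟨⟨⟨v, hv⟩, -⟩, -⟩ := hF'
    calc (1 : ℝ) = ∑ w ∈ {v}, (1 : ℝ) := by simp
      _ ≤ ∑ w ∈ F', (1 : ℝ) :=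
        Finset.sum_le_sum_of_subset_of_nonneg (by simpa using hv) (fun _ _ _ => zero_le_one)
  · rintro s ⟨x, hx, hc, rfl⟩
    have h1 : ∀ i, 1 ≤ ∑ v ∈ F i, x v := by
      intro i
      obtain ⟨F', h2, h3⟩ := exists_minFort (hF i)
      exact (hc F' h2).trans (Finset.sum_le_sum_of_subset_of_nonneg h3 (fun v _ _ => hx v))
    calc ∑ i, y i ≤ ∑ i, y i * ∑ v ∈ F i, x v :=
          Finset.sum_le_sum (fun i _ => le_mul_of_one_le_right (hy i) (h1 i))
      _ = ∑ i, ∑ v, (if v ∈ F i then y i else 0) * x v := by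
          refine Finset.sum_congr rfl (fun i _ => ?_)
          rw [Finset.mul_sum, ← Finset.sum_filter_add_sum_filter_not Finset.univ (· ∈ F i)]
          have e1 : ∑ v ∈ Finset.univ.filter (fun v => v ∉ F i),
              (if v ∈ F i then y i else 0) * x v = 0 := by
            refine Finset.sum_eq_zero (fun v hv => ?_)
            rw [if_neg (Finset.mem_filter.1 hv).2, zero_mul]
          rw [e1, add_zero]
          have e2 : Finset.univ.filter (fun v => v ∈ F i) = F i := by ext; simp
          rw [e2]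
          exact Finset.sum_congr rfl (fun v hv => by rw [if_pos hv])
      _ = ∑ v, (∑ i, (if v ∈ F i then y i else 0)) * x v := by
          rw [Finset.sum_comm]
          exact Finset.sum_congr rfl (fun v _ => by rw [Finset.sum_mul])
      _ ≤ ∑ v, x v := Finset.sum_le_sum (fun v _ => by
          have := mul_le_mul_of_nonneg_right (hpack v) (hx v)
          simpa using this)

/-- A support set `S` of the row `a` of `A`. -/
theorem row {V : Type*} [Fintype V] {G : SimpleGraph V} {A : Matrix V V ℝ} (hA : InS G A)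
    {x : V → ℝ} (hx : A.mulVec x = 0) (a : V) (S : Finset V)
    (hS : ∀ j, j ∉ S → a ≠ j ∧ ¬ G.Adj a j) : ∑ j ∈ S, A a j * x j = 0 := by
  have h1 : ∑ j, A a j * x j = 0 := by
    have := congrFun hx a
    simpa [Matrix.mulVec, dotProduct] using this
  rw [← h1]
  refine Finset.sum_subset (Finset.subset_univ _) (fun j _ hj => ?_)
  obtain ⟨h2, h3⟩ := hS j hj
  have h4 : A a j = 0 := by
    by_contra hne
    exact h3 ((hA.2 a j h2).1 hne)
  rw [h4, zero_mul]

/-- A space of dimension at least four contains a nonzero vector killed by three functionals. -/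
theorem exists_vec {V : Type*} [Fintype V] (K : Submodule ℝ (V → ℝ))
    (hK : 4 ≤ Module.finrank ℝ K) (a b c : V) :
    ∃ x ∈ K, x ≠ 0 ∧ x a = 0 ∧ x b = 0 ∧ x c = 0 := by
  classical
  let f : K →ₗ[ℝ] (Fin 3 → ℝ) :=
    { toFun := fun x => ![x.1 a, x.1 b, x.1 c]
      map_add' := fun x y => by ext i; fin_cases i <;> simp
      map_smul' := fun r x => by ext i; fin_cases i <;> simp }
  have h1 : LinearMap.ker f ≠ ⊥ := by
    apply LinearMap.ker_ne_bot_of_finrank_lt
    simp
    omega
  obtain ⟨x, hx, hne⟩ := (Submodule.ne_bot_iff _).1 h1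
  rw [LinearMap.mem_ker] at hx
  refine ⟨x.1, x.2, fun h => hne (Subtype.ext h), ?_, ?_, ?_⟩
  · simpa [f] using congrFun hx 0
  · simpa [f] using congrFun hx 1
  · simpa [f] using congrFun hx 2

end Pool.Agent.R188.ZF
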