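import Mathlib
import Pool.Agent.R188.ZF.Defs

set_option autoImplicit false

namespace Pool.Agent.R188.ZF

open Finset

abbrev V17 : Type := Option (Fin 2 × Fin 8)

/-- The edges inside one copy. -/
def edgeB (k l : Fin 8) : Bool :=
  (k, l) ∈ ([(0, 1), (1, 0), (0, 2), (2, 0), (1, 3), (3, 1), (0, 4), (4, 0), (1, 5), (5, 1),
    (4, 6), (6, 4), (5, 7), (7, 5)] : List (Fin 8 × Fin 8))

/-- The neighbours of the centre in one copy. -/
def nbB (k : Fin 8) : Bool := k ∈ ([0, 1, 6, 7] : List (Fin 8))

def adjB : V17 → V17 → Bool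
  | none, none => false
  | none, some (_, k) => nbB k
  | some (_, k), none => nbB k
  | some (i, k), some (j, l) => decide (i = j) && edgeB k l

/-- The graph with seventeen vertices: two copies of a graph with nine vertices that share the
vertex `none`. -/
def G17 : SimpleGraph V17 where
  Adj a b := adjB a b = true
  symm := ⟨by
    have h : ∀ a b : V17, adjB a b = adjB b a := by decide
    intro a b hab
    rw [h b a]
    exact hab⟩
  loopless := ⟨by
    have h : ∀ a : V17, adjB a a = false := by decide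
    intro a ha
    rw [h a] at ha
    exact Bool.noConfusion ha⟩

instance : DecidableRel G17.Adj := fun a b => inferInstanceAs (Decidable (adjB a b = true))

/-- The equations of one copy; `z` is the value at the centre. -/
structure Eqs (A : Matrix V17 V17 ℝ) (i : Fin 2) (x : Fin 8 → ℝ) (z : ℝ) : Prop where
  e0 : A (some (i, 0)) (some (i, 0)) * x 0 + A (some (i, 0)) (some (i, 1)) * x 1 +
    A (some (i, 0)) (some (i, 2)) * x 2 + A (some (i, 0)) (some (i, 4)) * x 4 +
    A (some (i, 0)) none * z = 0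
  e1 : A (some (i, 1)) (some (i, 1)) * x 1 + A (some (i, 1)) (some (i, 0)) * x 0 +
    A (some (i, 1)) (some (i, 3)) * x 3 + A (some (i, 1)) (some (i, 5)) * x 5 +
    A (some (i, 1)) none * z = 0
  e2 : A (some (i, 2)) (some (i, 2)) * x 2 + A (some (i, 2)) (some (i, 0)) * x 0 = 0
  e3 : A (some (i, 3)) (some (i, 3)) * x 3 + A (some (i, 3)) (some (i, 1)) * x 1 = 0
  e4 : A (some (i, 4)) (some (i, 4)) * x 4 + A (some (i, 4)) (some (i, 0)) * x 0 +
    A (some (i, 4)) (some (i, 6)) * x 6 = 0
  e5 : A (some (i, 5)) (some (i, 5)) * x 5 + A (some (i, 5)) (some (i, 1)) * x 1 +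
    A (some (i, 5)) (some (i, 7)) * x 7 = 0
  e6 : A (some (i, 6)) (some (i, 6)) * x 6 + A (some (i, 6)) (some (i, 4)) * x 4 +
    A (some (i, 6)) none * z = 0
  e7 : A (some (i, 7)) (some (i, 7)) * x 7 + A (some (i, 7)) (some (i, 5)) * x 5 +
    A (some (i, 7)) none * z = 0

/-- The part of the row of the centre which belongs to one copy. -/
def ctr (A : Matrix V17 V17 ℝ) (i : Fin 2) (x : Fin 8 → ℝ) : ℝ :=
  A none (some (i, 0)) * x 0 + A none (some (i, 1)) * x 1 + A none (some (i, 6)) * x 6 +
    A none (some (i, 7)) * x 7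

theorem eqs_of {A : Matrix V17 V17 ℝ} (hA : InS G17 A) {x : V17 → ℝ} (hx : A.mulVec x = 0)
    (i : Fin 2) : Eqs A i (fun k => x (some (i, k))) (x none) := by
  have hs : ∀ (a : V17) (S : Finset V17), (∀ j, j ∉ S → a ≠ j ∧ ¬ G17.Adj a j) →
      ∑ j ∈ S, A a j * x j = 0 := fun a S h => row hA hx a S h
  constructor
  · have := hs (some (i, 0)) {some (i, 0), some (i, 1), some (i, 2), some (i, 4), none}
      (by revert i; decide)
    simpa [add_assoc] using this
  · have := hs (some (i, 1)) {some (i, 1), some (i, 0), some (i, 3), some (i, 5), none}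
      (by revert i; decide)
    simpa [add_assoc] using this
  · have := hs (some (i, 2)) {some (i, 2), some (i, 0)} (by revert i; decide)
    simpa [add_assoc] using this
  · have := hs (some (i, 3)) {some (i, 3), some (i, 1)} (by revert i; decide)
    simpa [add_assoc] using this
  · have := hs (some (i, 4)) {some (i, 4), some (i, 0), some (i, 6)} (by revert i; decide)
    simpa [add_assoc] using this
  · have := hs (some (i, 5)) {some (i, 5), some (i, 1), some (i, 7)} (by revert i; decide)
    simpa [add_assoc] using this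
  · have := hs (some (i, 6)) {some (i, 6), some (i, 4), none} (by revert i; decide)
    simpa [add_assoc] using this
  · have := hs (some (i, 7)) {some (i, 7), some (i, 5), none} (by revert i; decide)
    simpa [add_assoc] using this

theorem ctr_sum {A : Matrix V17 V17 ℝ} (hA : InS G17 A) {x : V17 → ℝ} (hx : A.mulVec x = 0) :
    A none none * x none + ctr A 0 (fun k => x (some (0, k))) +
      ctr A 1 (fun k => x (some (1, k))) = 0 := by
  have := row hA hx none {none, some (0, 0), some (0, 1), some (0, 6), some (0, 7),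
    some (1, 0), some (1, 1), some (1, 6), some (1, 7)} (by decide)
  simp at this
  unfold ctr
  linarith

theorem entry {A : Matrix V17 V17 ℝ} (hA : InS G17 A) {a b : V17} (h : G17.Adj a b) :
    A a b ≠ 0 := (hA.2 a b h.ne).2 h

theorem entryA {A : Matrix V17 V17 ℝ} (hA : InS G17 A) (i : Fin 2) {k l : Fin 8}
    (h : edgeB k l = true) : A (some (i, k)) (some (i, l)) ≠ 0 :=
  entry hA (by
    show adjB (some (i, k)) (some (i, l)) = true
    simp [adjB, h])

theorem entryC {A : Matrix V17 V17 ℝ} (hA : InS G17 A) (i : Fin 2) {k : Fin 8}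
    (h : nbB k = true) : A none (some (i, k)) ≠ 0 :=
  entry hA (by
    show adjB none (some (i, k)) = true
    simp [adjB, h])

/-- The vertices 2 and 3 force a whole copy once the centre is zero. -/
theorem force {A : Matrix V17 V17 ℝ} (hA : InS G17 A) (i : Fin 2) {x : Fin 8 → ℝ}
    (h : Eqs A i x 0) (h2 : x 2 = 0) (h3 : x 3 = 0) : ∀ k, x k = 0 := by
  have n20 : A (some (i, 2)) (some (i, 0)) ≠ 0 := entryA hA i (by decide)
  have n31 : A (some (i, 3)) (some (i, 1)) ≠ 0 := entryA hA i (by decide)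
  have n04 : A (some (i, 0)) (some (i, 4)) ≠ 0 := entryA hA i (by decide)
  have n15 : A (some (i, 1)) (some (i, 5)) ≠ 0 := entryA hA i (by decide)
  have n46 : A (some (i, 4)) (some (i, 6)) ≠ 0 := entryA hA i (by decide)
  have n57 : A (some (i, 5)) (some (i, 7)) ≠ 0 := entryA hA i (by decide)
  have x0 : x 0 = 0 := by
    have := h.e2
    rw [h2] at this
    simpa [n20] using this
  have x1 : x 1 = 0 := by
    have := h.e3
    rw [h3] at this
    simpa [n31] using this
  have x4 : x 4 = 0 := by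
    have := h.e0
    rw [h2, x0, x1] at this
    simpa [n04] using this
  have x5 : x 5 = 0 := by
    have := h.e1
    rw [h3, x0, x1] at this
    simpa [n15] using this
  have x6 : x 6 = 0 := by
    have := h.e4
    rw [x4, x0] at this
    simpa [n46] using this
  have x7 : x 7 = 0 := by
    have := h.e5
    rw [x5, x1] at this
    simpa [n57] using this
  intro k
  fin_cases k
  · exact x0
  · exact x1
  · exact h2
  · exact h3
  · exact x4
  · exact x5
  · exact x6
  · exact x7

/-- One half of the key lemma: let `y` vanish at the vertex 2 and not at the vertex 3 and let the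
row of the centre hold for `y`; then `y 1 ≠ 0`, so the block of the vertices 4, 6 is singular. -/
theorem half0 {A : Matrix V17 V17 ℝ} (hA : InS G17 A) (i : Fin 2) {y : Fin 8 → ℝ}
    (h : Eqs A i y 0) (hc : ctr A i y = 0) (h2 : y 2 = 0) (h3 : y 3 ≠ 0) :
    y 1 ≠ 0 ∧ A (some (i, 4)) (some (i, 4)) * A (some (i, 6)) (some (i, 6)) =
      A (some (i, 4)) (some (i, 6)) * A (some (i, 6)) (some (i, 4)) := by
  have n20 : A (some (i, 2)) (some (i, 0)) ≠ 0 := entryA hA i (by decide)
  have n01 : A (some (i, 0)) (some (i, 1)) ≠ 0 := entryA hA i (by decide)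
  have n04 : A (some (i, 0)) (some (i, 4)) ≠ 0 := entryA hA i (by decide)
  have n46 : A (some (i, 4)) (some (i, 6)) ≠ 0 := entryA hA i (by decide)
  have n57 : A (some (i, 5)) (some (i, 7)) ≠ 0 := entryA hA i (by decide)
  have n75 : A (some (i, 7)) (some (i, 5)) ≠ 0 := entryA hA i (by decide)
  have n13 : A (some (i, 1)) (some (i, 3)) ≠ 0 := entryA hA i (by decide)
  have m7 : A none (some (i, 7)) ≠ 0 := entryC hA i (by decide)
  have y0 : y 0 = 0 := by
    have := h.e2
    rw [h2] at this
    simpa [n20] using this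
  have y1 : y 1 ≠ 0 := by
    intro y1
    have y4 : y 4 = 0 := by
      have := h.e0
      rw [h2, y0, y1] at this
      simpa [n04] using this
    have y6 : y 6 = 0 := by
      have := h.e4
      rw [y4, y0] at this
      simpa [n46] using this
    have y7 : y 7 = 0 := by
      have := hc
      unfold ctr at this
      rw [y0, y1, y6] at this
      simpa [m7] using this
    have y5 : y 5 = 0 := by
      have := h.e7
      rw [y7] at this
      simpa [n75] using this
    have := h.e1
    rw [y0, y1, y5] at this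
    apply h3
    simpa [n13] using this
  refine ⟨y1, ?_⟩
  have y4 : y 4 ≠ 0 := by
    intro y4
    have := h.e0
    rw [h2, y0, y4] at this
    apply y1
    simpa [n01] using this
  have e4 := h.e4
  have e6 := h.e6
  rw [y0] at e4
  have k1 : (A (some (i, 4)) (some (i, 4)) * A (some (i, 6)) (some (i, 6)) -
      A (some (i, 4)) (some (i, 6)) * A (some (i, 6)) (some (i, 4))) * y 4 = 0 := by
    linear_combination A (some (i, 6)) (some (i, 6)) * e4 - A (some (i, 4)) (some (i, 6)) * e6
  rcases mul_eq_zero.1 k1 with k | k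
  · linarith
  · exact absurd k y4

/-- The mirror image of `half0`. -/
theorem half1 {A : Matrix V17 V17 ℝ} (hA : InS G17 A) (i : Fin 2) {y : Fin 8 → ℝ}
    (h : Eqs A i y 0) (hc : ctr A i y = 0) (h2 : y 3 = 0) (h3 : y 2 ≠ 0) :
    y 0 ≠ 0 ∧ y 1 = 0 := by
  have n20 : A (some (i, 3)) (some (i, 1)) ≠ 0 := entryA hA i (by decide)
  have n01 : A (some (i, 1)) (some (i, 0)) ≠ 0 := entryA hA i (by decide)
  have n04 : A (some (i, 1)) (some (i, 5)) ≠ 0 := entryA hA i (by decide)
  have n46 : A (some (i, 5)) (some (i, 7)) ≠ 0 := entryA hA i (by decide)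
  have n75 : A (some (i, 6)) (some (i, 4)) ≠ 0 := entryA hA i (by decide)
  have n13 : A (some (i, 0)) (some (i, 2)) ≠ 0 := entryA hA i (by decide)
  have m7 : A none (some (i, 6)) ≠ 0 := entryC hA i (by decide)
  have y0 : y 1 = 0 := by
    have := h.e3
    rw [h2] at this
    simpa [n20] using this
  refine ⟨?_, y0⟩
  intro y1
  have y4 : y 5 = 0 := by
    have := h.e1
    rw [h2, y0, y1] at this
    simpa [n04] using this
  have y6 : y 7 = 0 := by
    have := h.e5
    rw [y4, y0] at this
    simpa [n46] using this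
  have y7 : y 6 = 0 := by
    have := hc
    unfold ctr at this
    rw [y0, y1, y6] at this
    simpa [m7] using this
  have y5 : y 4 = 0 := by
    have := h.e6
    rw [y7] at this
    simpa [n75] using this
  have := h.e0
  rw [y0, y1, y5] at this
  apply h3
  simpa [n13] using this

/-- The key lemma: one copy does not carry both kinds of vectors. -/
theorem key {A : Matrix V17 V17 ℝ} (hA : InS G17 A) (i : Fin 2) {y w : Fin 8 → ℝ}
    (hy : Eqs A i y 0) (hcy : ctr A i y = 0) (hy2 : y 2 = 0) (hy3 : y 3 ≠ 0)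
    (hw : Eqs A i w 0) (hcw : ctr A i w = 0) (hw3 : w 3 = 0) (hw2 : w 2 ≠ 0) : False := by
  obtain ⟨-, hs⟩ := half0 hA i hy hcy hy2 hy3
  obtain ⟨w0, w1⟩ := half1 hA i hw hcw hw3 hw2
  have n46 : A (some (i, 4)) (some (i, 6)) ≠ 0 := entryA hA i (by decide)
  have n64 : A (some (i, 6)) (some (i, 4)) ≠ 0 := entryA hA i (by decide)
  have n40 : A (some (i, 4)) (some (i, 0)) ≠ 0 := entryA hA i (by decide)
  have e4 := hw.e4
  have e6 := hw.e6
  have d6 : A (some (i, 6)) (some (i, 6)) ≠ 0 := by
    intro h0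
    rw [h0, mul_zero] at hs
    exact mul_ne_zero n46 n64 hs.symm
  have k1 : A (some (i, 6)) (some (i, 6)) * A (some (i, 4)) (some (i, 0)) * w 0 = 0 := by
    linear_combination A (some (i, 6)) (some (i, 6)) * e4 - A (some (i, 4)) (some (i, 6)) * e6 -
      w 4 * hs
  exact (mul_ne_zero (mul_ne_zero d6 n40) w0) k1

/-- If some kernel vector does not vanish at the centre, then the row of the centre splits. -/
theorem split {A : Matrix V17 V17 ℝ} (hA : InS G17 A) (i : Fin 2) {x y : Fin 8 → ℝ} {z : ℝ}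
    (hz : z ≠ 0) (hx : Eqs A i x z) (hy : Eqs A i y 0) : ctr A i y = 0 := by
  have s : ∀ a b, A a b = A b a := fun a b => hA.1.apply b a
  have h : z * ctr A i y = 0 := by
    unfold ctr
    have hx0 := hx.e0
    have hx1 := hx.e1
    have hx2 := hx.e2
    have hx3 := hx.e3
    have hx4 := hx.e4
    have hx5 := hx.e5
    have hx6 := hx.e6
    have hx7 := hx.e7
    have hy0 := hy.e0
    have hy1 := hy.e1
    have hy2 := hy.e2
    have hy3 := hy.e3
    have hy4 := hy.e4
    have hy5 := hy.e5
    have hy6 := hy.e6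
    have hy7 := hy.e7
    rw [s (some (i, 1)) (some (i, 0))] at hx1 hy1
    rw [s (some (i, 2)) (some (i, 0))] at hx2 hy2
    rw [s (some (i, 3)) (some (i, 1))] at hx3 hy3
    rw [s (some (i, 4)) (some (i, 0))] at hx4 hy4
    rw [s (some (i, 5)) (some (i, 1))] at hx5 hy5
    rw [s (some (i, 6)) (some (i, 4))] at hx6 hy6
    rw [s (some (i, 7)) (some (i, 5))] at hx7 hy7
    rw [s none (some (i, 0)), s none (some (i, 1)), s none (some (i, 6)), s none (some (i, 7))]
    linear_combination y 0 * hx0 + y 1 * hx1 + y 2 * hx2 + y 3 * hx3 + y 4 * hx4 + y 5 * hx5 +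
      y 6 * hx6 + y 7 * hx7 - x 0 * hy0 - x 1 * hy1 - x 2 * hy2 - x 3 * hy3 - x 4 * hy4 -
      x 5 * hy5 - x 6 * hy6 - x 7 * hy7
  exact (mul_eq_zero.1 h).resolve_left hz

theorem nullity_le {A : Matrix V17 V17 ℝ} (hA : InS G17 A) : nullity A ≤ 3 := by
  by_contra hcon
  have hK : 4 ≤ Module.finrank ℝ (LinearMap.ker A.mulVecLin) := by
    unfold nullity at hcon
    omega
  have hker : ∀ x ∈ LinearMap.ker A.mulVecLin, A.mulVec x = 0 := by
    intro x hx
    simpa using hx
  have hctr0 : ∀ (i : Fin 2) (x : Fin 8 → ℝ), (∀ k, x k = 0) → ctr A i x = 0 := by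
    intro i x hx
    unfold ctr
    rw [hx 0, hx 1, hx 6, hx 7]
    ring
  have hzero : ∀ x ∈ LinearMap.ker A.mulVecLin, x ≠ 0 → x none = 0 →
      x (some (0, 2)) = 0 → x (some (0, 3)) = 0 → x (some (1, 2)) = 0 → x (some (1, 3)) ≠ 0 := by
    intro x hx hne h0 h1 h2 h3 h4
    apply hne
    have a0 := force hA 0 (by have := eqs_of hA (hker x hx) 0; rwa [h0] at this) h1 h2
    have a1 := force hA 1 (by have := eqs_of hA (hker x hx) 1; rwa [h0] at this) h3 h4
    funext v
    match v with
    | none => exact h0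
    | some (i, k) =>
      fin_cases i
      · exact a0 k
      · exact a1 k
  by_cases hc : ∃ x ∈ LinearMap.ker A.mulVecLin, x none ≠ 0
  · obtain ⟨x, hx, hxn⟩ := hc
    have hsp : ∀ y ∈ LinearMap.ker A.mulVecLin, y none = 0 → ∀ i,
        Eqs A i (fun k => y (some (i, k))) 0 ∧ ctr A i (fun k => y (some (i, k))) = 0 := by
      intro y hy hyn i
      have e := eqs_of hA (hker y hy) i
      rw [hyn] at e
      exact ⟨e, split hA i hxn (eqs_of hA (hker x hx) i) e⟩
    -- the four vectors
    obtain ⟨y1, m1, n1, z1, a1, b1⟩ := exists_vec _ hK none (some (0, 2)) (some (1, 2))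
    obtain ⟨y2, m2, n2, z2, a2, b2⟩ := exists_vec _ hK none (some (0, 3)) (some (1, 3))
    obtain ⟨y3, m3, n3, z3, a3, b3⟩ := exists_vec _ hK none (some (0, 2)) (some (1, 3))
    obtain ⟨y4, m4, n4, z4, a4, b4⟩ := exists_vec _ hK none (some (0, 3)) (some (1, 2))
    let Y : Fin 2 → Prop := fun i => ∃ y ∈ LinearMap.ker A.mulVecLin, y none = 0 ∧
      y (some (i, 2)) = 0 ∧ y (some (i, 3)) ≠ 0
    let W : Fin 2 → Prop := fun i => ∃ y ∈ LinearMap.ker A.mulVecLin, y none = 0 ∧
      y (some (i, 3)) = 0 ∧ y (some (i, 2)) ≠ 0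
    have hYW : ∀ i, Y i → W i → False := by
      rintro i ⟨y, hy, hyn, hy2, hy3⟩ ⟨w, hw, hwn, hw3, hw2⟩
      exact key hA i (hsp y hy hyn i).1 (hsp y hy hyn i).2 hy2 hy3 (hsp w hw hwn i).1
        (hsp w hw hwn i).2 hw3 hw2
    have c1 : Y 0 ∨ Y 1 := by
      by_cases h : y1 (some (0, 3)) = 0
      · exact Or.inr ⟨y1, m1, z1, b1, hzero y1 m1 n1 z1 a1 h b1⟩
      · exact Or.inl ⟨y1, m1, z1, a1, h⟩
    have c2 : W 0 ∨ W 1 := by
      by_cases h : y2 (some (0, 2)) = 0
      · refine Or.inr ⟨y2, m2, z2, b2, fun h' => ?_⟩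
        exact hzero y2 m2 n2 z2 h a2 h' b2
      · exact Or.inl ⟨y2, m2, z2, a2, h⟩
    have c3 : Y 0 ∨ W 1 := by
      by_cases h : y3 (some (0, 3)) = 0
      · refine Or.inr ⟨y3, m3, z3, b3, fun h' => ?_⟩
        exact hzero y3 m3 n3 z3 a3 h h' b3
      · exact Or.inl ⟨y3, m3, z3, a3, h⟩
    have c4 : W 0 ∨ Y 1 := by
      by_cases h : y4 (some (0, 2)) = 0
      · exact Or.inr ⟨y4, m4, z4, b4, hzero y4 m4 n4 z4 h a4 b4⟩
      · exact Or.inl ⟨y4, m4, z4, a4, h⟩
    rcases c1 with h1 | h1
    · have hW1 : W 1 := c2.resolve_left (fun h => hYW 0 h1 h)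
      have hY1 : Y 1 := c4.resolve_left (fun h => hYW 0 h1 h)
      exact hYW 1 hY1 hW1
    · have hW1 : ¬ W 1 := fun h => hYW 1 h1 h
      exact hYW 0 (c3.resolve_right hW1) (c2.resolve_right hW1)
  · push Not at hc
    obtain ⟨y, my, ny, a, b, c⟩ := exists_vec _ hK (some (0, 2)) (some (1, 2)) (some (1, 3))
    obtain ⟨w, mw, nw, a', b', c'⟩ := exists_vec _ hK (some (0, 3)) (some (1, 2)) (some (1, 3))
    have hy0 := hc y my
    have hw0 := hc w mw
    have ey := fun i => eqs_of hA (hker y my) i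
    have ew := fun i => eqs_of hA (hker w mw) i
    rw [hy0] at ey
    rw [hw0] at ew
    have fy := force hA 1 (ey 1) b c
    have fw := force hA 1 (ew 1) b' c'
    have cy := ctr_sum hA (hker y my)
    have cw := ctr_sum hA (hker w mw)
    rw [hy0, hctr0 1 _ fy] at cy
    rw [hw0, hctr0 1 _ fw] at cw
    refine key hA 0 (ey 0) (by linarith) a ?_ (ew 0) (by linarith) a' ?_
    · intro h
      exact hzero y my ny hy0 a h b c
    · intro h
      exact hzero w mw nw hw0 h a' b' c'

end Pool.Agent.R188.ZF
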